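import Mathlib
import Pool.Agent.H76.GL.Main2

/-!
# The lattice theorem, local form, simplified

A tame height `t` satisfies `r < |t|` (the disc must avoid the pole), so for tame even combinations the
alternative `|t| ≤ C Δ` is void once `c` is small, and the bound for `E` needs no condition `1 ≤ |t|`.
-/

set_option autoImplicit false

open Complex

namespace Pool.Agent.H21.GX

open Pool.Agent.H76.CR Pool.Agent.H76.RP Pool.Agent.H52.ZR Pool.Agent.H76.GS Pool.Agent.H76.GL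

/-- a tame height is beyond the pole -/
theorem tame_abs {r E t : ℝ} (hr : 0 < r) (h : Tame r E t) : r < |t| := by
  by_contra hc
  push Not at hc
  have h0 := riemannZeta_residue_one
  have h1 : ∀ᶠ s in nhdsWithin (1 : ℂ) {1}ᶜ, (1 / 2 : ℝ) < ‖(s - 1) * riemannZeta s‖ := by
    have h2 : (1 / 2 : ℝ) < ‖(1 : ℂ)‖ := by rw [norm_one]; norm_num
    exact h0.norm.eventually (lt_mem_nhds h2)
  rw [eventually_nhdsWithin_iff, Metric.eventually_nhds_iff] at h1
  obtain ⟨δ, hδ, h2⟩ := h1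
  obtain ⟨v, x0, hv, hx0, h3⟩ : ∃ (v : ℂ) (x0 : ℝ), ‖v‖ = 1 ∧ 0 < x0 ∧
      ∀ x : ℝ, 0 < x → x ≤ x0 → ‖(1 + x * v) - (1 + t * I)‖ ≤ r := by
    rcases lt_trichotomy t 0 with ht | ht | ht
    · refine ⟨-I, -t, by simp, by linarith, fun x hx hx' => ?_⟩
      have e : (1 + (x : ℂ) * (-I)) - (1 + t * I) = ((-(x + t) : ℝ) : ℂ) * I := by push_cast; ring
      rw [abs_of_neg ht] at hc
      rw [e, norm_mul, norm_I, mul_one, norm_real, Real.norm_eq_abs, abs_le]
      constructor <;> linarith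
    · refine ⟨1, r, by simp, hr, fun x hx hx' => ?_⟩
      have e : (1 + (x : ℂ) * 1) - (1 + t * I) = ((x : ℝ) : ℂ) := by
        rw [ht]
        push_cast
        ring
      rw [e, norm_real, Real.norm_eq_abs, abs_of_pos hx]
      exact hx'
    · refine ⟨I, t, by simp, ht, fun x hx hx' => ?_⟩
      have e : (1 + (x : ℂ) * I) - (1 + t * I) = ((x - t : ℝ) : ℂ) * I := by push_cast; ring
      rw [abs_of_pos ht] at hc
      rw [e, norm_mul, norm_I, mul_one, norm_real, Real.norm_eq_abs, abs_le]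
      constructor <;> linarith
  set x : ℝ := min (min x0 (δ / 2)) (1 / (4 * Real.exp E)) with hx
  have hEp := Real.exp_pos E
  have hxp : 0 < x := lt_min (lt_min hx0 (by linarith)) (by positivity)
  have hx1 : x ≤ x0 := (min_le_left _ _).trans (min_le_left _ _)
  have hx2 : x ≤ δ / 2 := (min_le_left _ _).trans (min_le_right _ _)
  have hx3 : x ≤ 1 / (4 * Real.exp E) := min_le_right _ _
  have hs : (1 + (x : ℂ) * v) - 1 = (x : ℂ) * v := by ring
  have hn : ‖(x : ℂ) * v‖ = x := by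
    rw [norm_mul, hv, mul_one, norm_real, Real.norm_eq_abs, abs_of_pos hxp]
  have h4 := h2 (y := 1 + x * v) (by rw [dist_eq_norm, hs, hn]; linarith) (by
    intro h5
    rw [Set.mem_singleton_iff] at h5
    have h6 : (x : ℂ) * v = 0 := by rw [← hs, h5, sub_self]
    rw [h6, norm_zero] at hn
    linarith)
  have h5 := h (1 + x * v) (h3 x hxp hx1)
  rw [norm_mul, hs, hn] at h4
  have h6 : x * ‖riemannZeta (1 + x * v)‖ ≤ 1 / (4 * Real.exp E) * Real.exp E :=
    mul_le_mul hx3 h5 (norm_nonneg _) (by positivity)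
  have h7 : 1 / (4 * Real.exp E) * Real.exp E = 1 / 4 := by
    field_simp
  linarith

/-- the number of zeros near `1 + it`, `|t| ≤ 1`, is bounded -/
theorem zc_bdd : ∃ N : ℝ, 1 ≤ N ∧ ∀ r t : ℝ, r ≤ 1 → |t| ≤ 1 → (zc r t : ℝ) ≤ N := by
  have hF := Pool.Agent.H6.zeros_finite 4
  refine ⟨1 + ((∑ u ∈ hF.toFinset, analyticOrderNatAt riemannZeta u : ℕ) : ℝ), ?_, ?_⟩
  · have : (0 : ℝ) ≤ ((∑ u ∈ hF.toFinset, analyticOrderNatAt riemannZeta u : ℕ) : ℝ) :=
      Nat.cast_nonneg _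
    linarith
  intro r t hr ht
  rw [zc_sum hr]
  have h1 : ∑ u ∈ (disc_finite hr t).toFinset, analyticOrderNatAt riemannZeta u ≤
      ∑ u ∈ hF.toFinset, analyticOrderNatAt riemannZeta u := by
    refine Finset.sum_le_sum_of_subset ?_
    intro u hu
    rw [Set.Finite.mem_toFinset] at hu ⊢
    obtain ⟨hu0, hu1⟩ := hu
    have hne : u ≠ 1 := by
      rintro rfl
      exact riemannZeta_one_ne_zero hu0
    refine ⟨?_, (zetaPole_eq_zero_iff hne).2 hu0⟩
    rw [Metric.mem_closedBall, dist_eq_norm]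
    have h2 : ‖(1 + t * I : ℂ) - 2‖ ≤ 2 := by
      have e : (1 + t * I : ℂ) - 2 = ((-1 : ℝ) : ℂ) + ((t : ℝ) : ℂ) * I := by push_cast; ring
      rw [e]
      refine (norm_add_le _ _).trans ?_
      rw [norm_mul, norm_I, mul_one, norm_real, norm_real, Real.norm_eq_abs, Real.norm_eq_abs]
      have : |(-1 : ℝ)| = 1 := by norm_num
      linarith
    calc ‖u - 2‖ = ‖(u - (1 + t * I)) + ((1 + t * I : ℂ) - 2)‖ := by congr 1; ring
      _ ≤ ‖u - (1 + t * I)‖ + ‖(1 + t * I : ℂ) - 2‖ := norm_add_le _ _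
      _ ≤ 4 := by linarith
  have h2 : ((∑ u ∈ (disc_finite hr t).toFinset, analyticOrderNatAt riemannZeta u : ℕ) : ℝ) ≤
      ((∑ u ∈ hF.toFinset, analyticOrderNatAt riemannZeta u : ℕ) : ℝ) := by exact_mod_cast h1
  linarith

/-- `L ≥ 1` when the depth is positive -/
theorem LL_ge {E : ℝ} (hE : 1 ≤ E) {S : Finset ℂ} {k : ℂ → ℤ} (hd : 0 < dep S k) : 1 ≤ LL E S k := by
  have hlen := len_ge hd
  unfold LL
  rw [Real.le_log_iff_exp_le (by nlinarith)]
  have := Real.exp_one_lt_d9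
  nlinarith

theorem localLattice' : ∃ c C : ℝ, 0 < c ∧ 1 ≤ C ∧ ∀ (r E : ℝ) (S : Finset ℂ) (k : ℂ → ℤ), 0 < r →
    r ≤ 1 → 1 + Real.log (1 / r) ≤ E →
    (∀ ρ ∈ S, riemannZeta ρ = 0 ∧ 1 ≤ |ρ.im| ∧ Tame r E ρ.im) →
    dep S k * LL E S k ≤ c * r →
    ((∀ ρ ∈ S, zc r ρ.im ≤ 1) ∨ dep S k * num r S k * LL E S k ≤ c * r ∨
      dep S k * (len S k ^ 2 * E) * LL E S k ≤ c * r) →
    (Tame r E (comb S k) → (Odd (∑ ρ ∈ S, k ρ) → 1 ≤ zc r (comb S k)) ∧
      (Even (∑ ρ ∈ S, k ρ) → c * r / (dep S k * LL E S k) ≤ zc r (comb S k) ∧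
        c * r / (dep S k * LL E S k) ≤ E)) ∧
    (r * vklam |comb S k| ≤ c → Even (∑ ρ ∈ S, k ρ) ∧ |comb S k| ≤ C * dep S k) := by
  obtain ⟨c1, C1, hc1, hC1, hmain⟩ := localLattice
  obtain ⟨N, hN1, hN⟩ := zc_bdd
  set c : ℝ := min (min c1 (c1 / N)) (1 / (2 * C1)) with hc
  have hc0 : 0 < c := lt_min (lt_min hc1 (by positivity)) (by positivity)
  have m1 : c ≤ c1 := (min_le_left _ _).trans (min_le_left _ _)
  have m2 : c ≤ c1 / N := (min_le_left _ _).trans (min_le_right _ _)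
  have m3 : c ≤ 1 / (2 * C1) := min_le_right _ _
  refine ⟨c, C1, hc0, hC1, ?_⟩
  intro r E S k hr hr1 hE hS hdL hA
  have hlr : 0 ≤ Real.log (1 / r) := Real.log_nonneg (by rw [le_div_iff₀ hr]; linarith)
  have hE1 : 1 ≤ E := by linarith
  have hcr : c * r ≤ c1 * r := mul_le_mul_of_nonneg_right m1 hr.le
  obtain ⟨a1, a2, a3⟩ := hmain r E S k hr hr1 hE hS (hdL.trans hcr)
    (hA.imp id (fun h => h.imp (fun h => h.trans hcr) (fun h => h.trans hcr)))
  refine ⟨fun ht => ⟨fun ho => a1 ht ho, fun he => ?_⟩, fun h => a3 (h.trans m1)⟩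
  have htr := tame_abs hr ht
  have hd0 : 0 ≤ dep S k := dep_nonneg' fun ρ hρ => (hS ρ hρ).1
  rcases hd0.eq_or_lt with hd | hd
  · rw [← hd]
    simp only [zero_mul, div_zero]
    exact ⟨Nat.cast_nonneg _, by linarith⟩
  have hL := LL_ge hE1 hd
  have hdL0 : 0 < dep S k * LL E S k := mul_pos hd (by linarith)
  have hd1 : dep S k ≤ dep S k * LL E S k := le_mul_of_one_le_right hd.le hL
  rcases a2 ht he with h | ⟨h1, h2⟩
  · exfalso
    have h3 : C1 * dep S k ≤ C1 * (c * r) :=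
      mul_le_mul_of_nonneg_left (hd1.trans hdL) (by linarith)
    have h4 : C1 * c ≤ 1 / 2 := by
      rw [le_div_iff₀ (by positivity)] at m3
      linarith
    have h5 : C1 * (c * r) ≤ 1 / 2 * r := by
      rw [← mul_assoc]
      exact mul_le_mul_of_nonneg_right h4 hr.le
    linarith
  have h3 : c * r / (dep S k * LL E S k) ≤ c1 * r / (dep S k * LL E S k) :=
    div_le_div_of_nonneg_right hcr hdL0.le
  refine ⟨h3.trans h1, ?_⟩
  rcases le_or_gt 1 |comb S k| with h4 | h4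
  · exact h3.trans (h2 h4)
  · have h5 : c1 * r / (dep S k * LL E S k) ≤ N := h1.trans (hN r _ hr1 h4.le)
    have h6 : c * r / (dep S k * LL E S k) ≤ c1 / N * r / (dep S k * LL E S k) :=
      div_le_div_of_nonneg_right (mul_le_mul_of_nonneg_right m2 hr.le) hdL0.le
    have h7 : c1 / N * r / (dep S k * LL E S k) = (c1 * r / (dep S k * LL E S k)) / N := by
      field_simp
    have h8 : (c1 * r / (dep S k * LL E S k)) / N ≤ 1 := by
      rw [div_le_one (by linarith)]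
      exact h5
    rw [h7] at h6
    linarith

/-- with the third alternative no even combination is tame -/
theorem wild : ∃ c : ℝ, 0 < c ∧ ∀ (r E : ℝ) (S : Finset ℂ) (k : ℂ → ℤ), 0 < r →
    r ≤ 1 → 1 + Real.log (1 / r) ≤ E →
    (∀ ρ ∈ S, riemannZeta ρ = 0 ∧ 1 ≤ |ρ.im| ∧ Tame r E ρ.im) →
    dep S k * (len S k ^ 2 * E) * LL E S k ≤ c * r → Even (∑ ρ ∈ S, k ρ) →
    ¬ Tame r E (comb S k) := by
  obtain ⟨c1, C1, hc1, hC1, hmain⟩ := localLattice'
  refine ⟨c1 / 2, by positivity, ?_⟩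
  intro r E S k hr hr1 hE hS hA he ht
  have hlr : 0 ≤ Real.log (1 / r) := Real.log_nonneg (by rw [le_div_iff₀ hr]; linarith)
  have hE1 : 1 ≤ E := by linarith
  have htr := tame_abs hr ht
  have hd0 : 0 ≤ dep S k := dep_nonneg' fun ρ hρ => (hS ρ hρ).1
  rcases hd0.eq_or_lt with hd | hd
  · have h1 := dep_zero (fun ρ hρ => (hS ρ hρ).1) hd.ge
    have h2 : comb S k = 0 := by
      unfold comb
      refine Finset.sum_eq_zero fun ρ hρ => ?_
      rw [h1 ρ hρ]
      simp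
    rw [h2, abs_zero] at htr
    linarith
  have hL := LL_ge hE1 hd
  have hlen := len_ge hd
  have hdL0 : 0 < dep S k * LL E S k := mul_pos hd (by linarith)
  have hl2 : 1 ≤ len S k ^ 2 := by nlinarith
  have h1 : dep S k * LL E S k * E ≤ c1 / 2 * r := by
    have h2 : dep S k * LL E S k * E ≤ dep S k * (len S k ^ 2 * E) * LL E S k := by
      have : dep S k * (len S k ^ 2 * E) * LL E S k = len S k ^ 2 * (dep S k * LL E S k * E) := by ring
      rw [this]
      exact le_mul_of_one_le_left (by positivity) hl2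
    exact h2.trans hA
  have h3 : dep S k * LL E S k ≤ dep S k * LL E S k * E := le_mul_of_one_le_right hdL0.le hE1
  have hcr : c1 / 2 * r ≤ c1 * r := by
    have : 0 < c1 * r := by positivity
    linarith
  obtain ⟨a1, -⟩ := hmain r E S k hr hr1 hE hS (h3.trans (h1.trans hcr)) (Or.inr (Or.inr (hA.trans hcr)))
  obtain ⟨-, h4⟩ := (a1 ht).2 he
  rw [div_le_iff₀ hdL0] at h4
  have h5 : 0 < c1 * r := by positivity
  nlinarith

end Pool.Agent.H21.GX
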